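import Pool.Agent.W95.BK.Stm

/-! BK-MIXC: mixing for indicators of discs and for continuous functions. -/

set_option autoImplicit false
set_option linter.all false

open Polynomial Topology Filter MeasureTheory
open scoped ENNReal

namespace Pool.Agent.W918.BKM

open Pool.Agent.W95.BK

universe u

variable {K : Type u} [NontriviallyNormedField K] [IsUltrametricDist K] [IsAlgClosed K]
  {R : RMap K} {ρ : Measure (P1B K)} [IsProbabilityMeasure ρ]

/-- integrable and mixing -/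
def MX (R : RMap K) (ρ : Measure (P1B K)) (v : P1B K → ℝ) : Prop := Integrable v ρ ∧ mixes R ρ v

theorem cont_act (hact : S_ACTC.{u}) (φ : C(P1B K, ℝ)) (j : ℕ) :
    Continuous (fun x => φ ((R.iter j).act x)) := φ.continuous.comp (hact K (R.iter j))

theorem int_mul (hact : S_ACTC.{u}) {v : P1B K → ℝ} (hv : Integrable v ρ) {φ : C(P1B K, ℝ)}
    (hφ : ∀ x, |φ x| ≤ 1) (j : ℕ) : Integrable (fun x => v x * φ ((R.iter j).act x)) ρ :=
  hv.mul_bdd (c := 1) (cont_act hact φ j).aestronglyMeasurable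
    (Eventually.of_forall fun x => hφ _)

theorem int_phi {φ : C(P1B K, ℝ)} (hφ : ∀ x, |φ x| ≤ 1) : |∫ x, φ x ∂ρ| ≤ 1 := by
  have h := norm_integral_le_of_norm_le_const (μ := ρ) (f := fun x => φ x) (C := 1)
    (Eventually.of_forall fun x => hφ x)
  simpa using h

theorem int_mul_le (hact : S_ACTC.{u}) {v : P1B K → ℝ} (hv : Integrable v ρ) {φ : C(P1B K, ℝ)}
    (hφ : ∀ x, |φ x| ≤ 1) (j : ℕ) :
    |∫ x, v x * φ ((R.iter j).act x) ∂ρ| ≤ ∫ x, |v x| ∂ρ := by
  refine (abs_integral_le_integral_abs).trans ?_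
  refine integral_mono (int_mul hact hv hφ j).abs hv.abs fun x => ?_
  simp only
  rw [abs_mul]
  calc |v x| * |φ ((R.iter j).act x)| ≤ |v x| * 1 :=
        mul_le_mul_of_nonneg_left (hφ _) (abs_nonneg _)
    _ = |v x| := mul_one _

theorem MX_add (hact : S_ACTC.{u}) {v w : P1B K → ℝ} (hv : MX R ρ v) (hw : MX R ρ w) :
    MX R ρ (fun x => v x + w x) := by
  refine ⟨hv.1.add hw.1, fun ε hε => ?_⟩
  obtain ⟨j1, h1⟩ := hv.2 (ε / 2) (by linarith)
  obtain ⟨j2, h2⟩ := hw.2 (ε / 2) (by linarith)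
  refine ⟨max j1 j2, fun j hj φ hφ => ?_⟩
  have e1 := h1 j (le_of_max_le_left hj) φ hφ
  have e2 := h2 j (le_of_max_le_right hj) φ hφ
  have i1 : ∫ x, (v x + w x) * φ ((R.iter j).act x) ∂ρ =
      ∫ x, v x * φ ((R.iter j).act x) ∂ρ + ∫ x, w x * φ ((R.iter j).act x) ∂ρ := by
    rw [← integral_add (int_mul hact hv.1 hφ j) (int_mul hact hw.1 hφ j)]
    simp only [add_mul]
  have i2 : ∫ x, (v x + w x) ∂ρ = ∫ x, v x ∂ρ + ∫ x, w x ∂ρ := integral_add hv.1 hw.1
  rw [i1, i2]
  have a1 := abs_le.1 e1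
  have a2 := abs_le.1 e2
  exact abs_le.2 ⟨by nlinarith [a1.1, a2.1], by nlinarith [a1.2, a2.2]⟩

theorem MX_smul {v : P1B K → ℝ} (hv : MX R ρ v) (c : ℝ) : MX R ρ (fun x => c * v x) := by
  refine ⟨hv.1.const_mul c, fun ε hε => ?_⟩
  obtain ⟨j1, h1⟩ := hv.2 (ε / (|c| + 1)) (by positivity)
  refine ⟨j1, fun j hj φ hφ => ?_⟩
  have e1 := h1 j hj φ hφ
  have i1 : ∫ x, (c * v x) * φ ((R.iter j).act x) ∂ρ =
      c * ∫ x, v x * φ ((R.iter j).act x) ∂ρ := by
    rw [← integral_const_mul]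
    simp only [mul_assoc]
  have i2 : ∫ x, (c * v x) ∂ρ = c * ∫ x, v x ∂ρ := integral_const_mul _ _
  rw [i1, i2, mul_assoc, ← mul_sub, abs_mul]
  calc |c| * |_| ≤ |c| * (ε / (|c| + 1)) := mul_le_mul_of_nonneg_left e1 (abs_nonneg c)
    _ ≤ (|c| + 1) * (ε / (|c| + 1)) := by
        apply mul_le_mul_of_nonneg_right (by linarith) (by positivity)
    _ = ε := by field_simp

theorem MX_const (hR : 2 ≤ R.d) (hE : IsEquilibrium R ρ) (hinv : S_INVM.{u}) (c : ℝ) :
    MX R ρ (fun _ => c) := by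
  refine ⟨integrable_const c, fun ε hε => ⟨0, fun j _ φ _ => ?_⟩⟩
  rw [integral_const_mul, hinv K R hR ρ inferInstance hE φ j]
  simp
  exact hε.le

theorem MX_sum {ι : Type*} (hact : S_ACTC.{u}) (s : Finset ι) (v : ι → P1B K → ℝ)
    (h0 : MX R ρ (fun _ => 0)) (hv : ∀ i ∈ s, MX R ρ (v i)) :
    MX R ρ (fun x => ∑ i ∈ s, v i x) := by
  classical
  induction s using Finset.induction_on with
  | empty => simpa using h0
  | insert i s hi ih =>
    have h1 := hv i (Finset.mem_insert_self i s)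
    have h2 := ih fun k hk => hv k (Finset.mem_insert_of_mem hk)
    have h3 := MX_add hact h1 h2
    refine cast ?_ h3
    congr 1
    funext x
    rw [Finset.sum_insert hi]

theorem MX_approx (hact : S_ACTC.{u}) {v : P1B K → ℝ} (hv : Integrable v ρ)
    (h : ∀ η : ℝ, 0 < η → ∃ v' : P1B K → ℝ, MX R ρ v' ∧ ∫ x, |v x - v' x| ∂ρ ≤ η) :
    mixes R ρ v := by
  intro ε hε
  obtain ⟨v', hv', hd⟩ := h (ε / 4) (by linarith)
  obtain ⟨j₀, hj₀⟩ := hv'.2 (ε / 2) (by linarith)
  refine ⟨j₀, fun j hj φ hφ => ?_⟩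
  have e1 := hj₀ j hj φ hφ
  have hi : Integrable (fun x => v x - v' x) ρ := hv.sub hv'.1
  have e2 := (int_mul_le (R := R) hact hi hφ j).trans hd
  have i1 : ∫ x, (v x - v' x) * φ ((R.iter j).act x) ∂ρ =
      ∫ x, v x * φ ((R.iter j).act x) ∂ρ - ∫ x, v' x * φ ((R.iter j).act x) ∂ρ := by
    rw [← integral_sub (int_mul hact hv hφ j) (int_mul hact hv'.1 hφ j)]
    simp only [sub_mul]
  have i2 : ∫ x, (v x - v' x) ∂ρ = ∫ x, v x ∂ρ - ∫ x, v' x ∂ρ := integral_sub hv hv'.1
  have e3 : |∫ x, v x ∂ρ - ∫ x, v' x ∂ρ| ≤ ε / 4 := by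
    rw [← i2]
    exact (abs_integral_le_integral_abs).trans hd
  have e4 : |(∫ x, v x ∂ρ - ∫ x, v' x ∂ρ) * ∫ x, φ x ∂ρ| ≤ ε / 4 := by
    rw [abs_mul]
    calc _ ≤ ε / 4 * 1 := mul_le_mul e3 (int_phi hφ) (abs_nonneg _) (by linarith)
      _ = _ := mul_one _
  rw [i1] at e2
  have a1 := abs_le.1 e1
  have a2 := abs_le.1 e2
  have a3 := abs_le.1 e4
  rw [sub_mul] at a3
  exact abs_le.2 ⟨by linarith [a1.1, a2.1, a3.2], by linarith [a1.2, a2.2, a3.1]⟩

theorem meas_ball (hNB : S_NB.{u}) (a : K) (r : ℝ) : MeasurableSet (ball a r) :=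
  ((hNB K).2.2.1 a r).measurableSet

theorem int_ind (hNB : S_NB.{u}) (a : K) (r : ℝ) :
    Integrable (Set.indicator (ball a r) (fun _ => (1 : ℝ))) ρ :=
  (integrable_const (1 : ℝ)).indicator (meas_ball hNB a r)

theorem cont_int {f : P1B K → ℝ} (hf : Continuous f) : Integrable f ρ := by
  obtain ⟨C, hC⟩ := (isCompact_univ (X := P1B K)).exists_bound_of_continuousOn hf.continuousOn
  exact (integrable_const C).mono' hf.aestronglyMeasurable
    (Eventually.of_forall fun x => hC x (Set.mem_univ x))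

theorem MX_ker (hR : 2 ≤ R.d) (hE : IsEquilibrium R ρ) (hK : S_MIXK.{u}) (hkc : S_KERC.{u})
    (a : K) {s t : ℝ} (hs : 0 < s) (ht : 0 < t) : MX R ρ (ker a s t) := by
  refine ⟨cont_int (hkc K a s t hs ht), fun ε hε => ?_⟩
  obtain ⟨B, hB, h⟩ := hK K R hR ρ inferInstance hE
  have hd : (1 : ℝ) < R.d := by
    have : (2 : ℝ) ≤ R.d := by exact_mod_cast hR
    linarith
  obtain ⟨j₀, hj₀⟩ := pow_unbounded_of_one_lt (B / ε) hd
  refine ⟨j₀, fun j hj φ hφ => (h a s t hs ht φ hφ j).trans ?_⟩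
  have h1 : (R.d : ℝ) ^ j₀ ≤ (R.d : ℝ) ^ j := pow_le_pow_right₀ hd.le hj
  have h2 : 0 < (R.d : ℝ) ^ j := by positivity
  rw [div_le_iff₀ h2]
  rw [div_lt_iff₀ hε] at hj₀
  nlinarith

/-- the annulus -/
def ann (a : K) (s r : ℝ) : Set (P1B K) := {x | ∃ y : BA K, x = (y : P1B K) ∧ s < lam y a ∧ lam y a < r}

theorem meas_ann (hNB : S_NB.{u}) (a : K) (s r : ℝ) : MeasurableSet (ann a s r) := by
  have h1 := meas_ball hNB a r
  have h2 := ((hNB K).2.2.2 a s).measurableSet
  have e : ann a s r = ball a r ∩ {x : P1B K | ∀ y : BA K, x = (y : P1B K) → s < lam y a} := by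
    ext x
    constructor
    · rintro ⟨y, rfl, h1, h2⟩
      refine ⟨⟨y, rfl, h2⟩, fun z hz => ?_⟩
      rw [OnePoint.coe_eq_coe] at hz
      rw [← hz]; exact h1
    · rintro ⟨⟨y, rfl, h1⟩, h2⟩
      exact ⟨y, rfl, h2 y rfl, h1⟩
  rw [e]
  exact h1.inter h2

theorem mixb : S_MIXK.{u} → S_KERC.{u} → S_NB.{u} → S_ACTC.{u} → S_MIXB.{u} := by
  intro hK hkc hNB hact K _ _ _ R hR ρ hρ hE a r hgood
  have hr : 0 < r := hgood.1
  refine MX_approx hact (int_ind hNB a r) fun η hη => ?_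
  -- choice of `s`
  have hanti : Antitone (fun n : ℕ => ann a (r - r / ((n : ℝ) + 2)) r) := by
    intro m n hmn x hx
    obtain ⟨y, rfl, h1, h2⟩ := hx
    refine ⟨y, rfl, lt_of_le_of_lt ?_ h1, h2⟩
    have : (m : ℝ) ≤ n := by exact_mod_cast hmn
    gcongr
  have hempty : ⋂ n : ℕ, ann a (r - r / ((n : ℝ) + 2)) r = ∅ := by
    rw [Set.eq_empty_iff_forall_notMem]
    intro x hx
    rw [Set.mem_iInter] at hx
    obtain ⟨y, rfl, -, h2⟩ := hx 0
    have hpos : 0 < r - lam y a := by linarith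
    obtain ⟨n, hn⟩ := exists_nat_gt (r / (r - lam y a))
    obtain ⟨y', hy', h1, -⟩ := hx n
    rw [OnePoint.coe_eq_coe] at hy'
    rw [← hy'] at h1
    rw [div_lt_iff₀ hpos] at hn
    have h3 : r / ((n : ℝ) + 2) < r - lam y a := by
      rw [div_lt_iff₀ (by positivity)]
      nlinarith
    linarith
  have hlim := tendsto_measure_iInter_atTop (μ := ρ)
    (fun n : ℕ => (meas_ann hNB a (r - r / ((n : ℝ) + 2)) r).nullMeasurableSet) hanti
    ⟨0, measure_ne_top _ _⟩
  rw [hempty, measure_empty] at hlim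
  obtain ⟨n, hn⟩ := (hlim.eventually (gt_mem_nhds (ENNReal.ofReal_pos.2 hη))).exists
  set s : ℝ := r - r / ((n : ℝ) + 2) with hs
  have hsr : s < r := by
    have : 0 < r / ((n : ℝ) + 2) := by positivity
    linarith
  have hs0 : 0 < s := by
    have h1 : r / ((n : ℝ) + 2) < r := by
      rw [div_lt_iff₀ (by positivity)]
      have : (0 : ℝ) ≤ n := Nat.cast_nonneg n
      nlinarith
    linarith
  have hL : 0 < Real.log r - Real.log s := by
    have := Real.log_lt_log hs0 hsr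
    linarith
  refine ⟨fun x => (Real.log r - Real.log s)⁻¹ * ker a s r x,
    MX_smul (MX_ker hR hE hK hkc a hs0 hr) _, ?_⟩
  have hpt : ∀ x : P1B K, |Set.indicator (ball a r) (fun _ => (1 : ℝ)) x -
      (Real.log r - Real.log s)⁻¹ * ker a s r x| ≤
      Set.indicator (ann a s r) (fun _ => (1 : ℝ)) x := by
    intro x
    induction x using OnePoint.rec with
    | infty =>
      have h1 : (OnePoint.infty : P1B K) ∉ ball a r := by
        rintro ⟨y, hy, -⟩
        exact OnePoint.infty_ne_coe _ hy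
      rw [Set.indicator_of_notMem h1]
      have h2 : ker a s r (OnePoint.infty : P1B K) = 0 := rfl
      rw [h2, mul_zero, sub_zero, abs_zero]
      exact Set.indicator_nonneg (fun _ _ => zero_le_one) _
    | coe y =>
      have hk : ker a s r (y : P1B K) = Real.log (max (lam y a) r) - Real.log (max (lam y a) s) :=
        rfl
      have hb : (y : P1B K) ∈ ball a r ↔ lam y a < r := by
        constructor
        · rintro ⟨z, hz, h⟩
          rw [OnePoint.coe_eq_coe] at hz
          rw [hz]; exact h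
        · intro h
          exact ⟨y, rfl, h⟩
      rcases le_or_gt r (lam y a) with h1 | h1
      · rw [Set.indicator_of_notMem (fun h => absurd (hb.1 h) (not_lt.2 h1)), hk,
          max_eq_left h1, max_eq_left (hsr.le.trans h1), sub_self, mul_zero, sub_zero, abs_zero]
        exact Set.indicator_nonneg (fun _ _ => zero_le_one) _
      · rw [Set.indicator_of_mem (hb.2 h1), hk, max_eq_right h1.le]
        rcases le_or_gt (lam y a) s with h2 | h2
        · rw [max_eq_right h2, inv_mul_cancel₀ hL.ne', sub_self, abs_zero]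
          exact Set.indicator_nonneg (fun _ _ => zero_le_one) _
        · have h3 : (y : P1B K) ∈ ann a s r := ⟨y, rfl, h2, h1⟩
          rw [Set.indicator_of_mem h3, max_eq_left h2.le]
          have hl0 : 0 < lam y a := hs0.trans h2
          have h4 : Real.log (lam y a) ≤ Real.log r := Real.log_le_log hl0 h1.le
          have h5 : Real.log s ≤ Real.log (lam y a) := Real.log_le_log hs0 h2.le
          have h6 : 0 ≤ (Real.log r - Real.log s)⁻¹ * (Real.log r - Real.log (lam y a)) := by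
            apply mul_nonneg (inv_nonneg.2 hL.le)
            linarith
          have h7 : (Real.log r - Real.log s)⁻¹ * (Real.log r - Real.log (lam y a)) ≤ 1 := by
            rw [inv_mul_eq_div, div_le_one hL]
            linarith
          exact abs_le.2 ⟨by linarith, by linarith⟩
  have hint1 : Integrable (fun x => |Set.indicator (ball a r) (fun _ => (1 : ℝ)) x -
      (Real.log r - Real.log s)⁻¹ * ker a s r x|) ρ :=
    ((int_ind hNB a r).sub ((cont_int (hkc K a s r hs0 hr)).const_mul _)).abs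
  have hint2 : Integrable (Set.indicator (ann a s r) (fun _ => (1 : ℝ))) ρ :=
    (integrable_const (1 : ℝ)).indicator (meas_ann hNB a s r)
  refine (integral_mono hint1 hint2 hpt).trans ?_
  rw [integral_indicator (meas_ann hNB a s r), setIntegral_const, smul_eq_mul, mul_one]
  exact ENNReal.toReal_le_of_le_ofReal hη.le (le_of_lt hn)

theorem mixc : S_MIXB.{u} → S_TL.{u} → S_GOOD.{u} → S_REP.{u} → S_INVM.{u} → S_NB.{u} →
    S_ACTC.{u} → S_MIXC.{u} := by
  classical
  intro hB hTL hG hrep hinv hNB hact K _ _ _ R hR ρ hρ hE φ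
  refine MX_approx hact (cont_int φ.continuous) fun η hη => ?_
  obtain ⟨F, hF1, hF2, hF3⟩ := hTL K (good ρ) (fun a s t hs hst => hG K ρ hρ a s t hs hst) φ η hη
  -- signatures
  set σ : P1B K → Finset (K × ℝ) := fun x => F.filter (fun p => x ∈ ball p.1 p.2) with hσ
  have hσ' : ∀ x y, σ x = σ y ↔ ∀ p ∈ F, x ∈ ball p.1 p.2 ↔ y ∈ ball p.1 p.2 := by
    intro x y
    constructor
    · intro h p hp
      have := congrArg (fun S => p ∈ S) h
      simp only [hσ, Finset.mem_filter, hp, true_and] at this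
      exact Iff.of_eq this
    · intro h
      exact Finset.filter_congr h
  set v : P1B K → ℝ := fun x =>
    φ (Classical.choose (⟨x, rfl⟩ : ∃ y, σ y = σ x)) with hv
  have hvσ : ∀ x, σ (Classical.choose (⟨x, rfl⟩ : ∃ y, σ y = σ x)) = σ x := fun x =>
    Classical.choose_spec (⟨x, rfl⟩ : ∃ y, σ y = σ x)
  have hv1 : ∀ x, |φ x - v x| ≤ η := by
    intro x
    refine hF3 x _ ?_
    exact (hσ' _ _).1 (hvσ x).symm
  have hv2 : ∀ x y, σ x = σ y → v x = v y := by
    intro x y hxy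
    simp only [hv]
    congr 2
    rw [hxy]
  obtain ⟨c₀, c, hc⟩ := hrep K F (fun p hp => (hF1 p hp).1) hF2 v
    (fun x y h => hv2 x y ((hσ' x y).2 h))
  have hMX : MX R ρ (fun x => c₀ + ∑ p ∈ F, c p * Set.indicator (ball p.1 p.2) (fun _ => (1 : ℝ)) x) := by
    refine MX_add hact (MX_const hR hE hinv c₀) ?_
    refine MX_sum hact F _ (MX_const hR hE hinv 0) fun p hp => ?_
    refine MX_smul ⟨int_ind hNB p.1 p.2, ?_⟩ (c p)
    exact hB K R hR ρ hρ hE p.1 p.2 (hF1 p hp).2
  have hveq : v = fun x => c₀ + ∑ p ∈ F, c p * Set.indicator (ball p.1 p.2) (fun _ => (1 : ℝ)) x := by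
    funext x
    rw [hc x]
    congr 1
    refine Finset.sum_congr rfl fun p _ => ?_
    by_cases hx : x ∈ ball p.1 p.2
    · rw [if_pos hx, Set.indicator_of_mem hx, mul_one]
    · rw [if_neg hx, Set.indicator_of_notMem hx, mul_zero]
  rw [← hveq] at hMX
  refine ⟨v, hMX, ?_⟩
  have hi : Integrable (fun x => |φ x - v x|) ρ := ((cont_int φ.continuous).sub hMX.1).abs
  refine (integral_mono hi (integrable_const η) hv1).trans ?_
  simp

end Pool.Agent.W918.BKM
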